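import Pool.Agent.W633.LT.Stm

set_option autoImplicit false

namespace Pool.Agent.W405.LG

open W633.LT

theorem indAdd : W633.LT.IndAdd := by
  intro k _ V' V V'' W' W W'' _ _ _ _ _ _ _ _ _ _ _ _ i p j q f' f f'' hi hip hp hj hjq hq h1 h2
    hF' hF hF''
  have := hF'.1
  have := hF'.2
  have := hF.1
  have := hF.2
  have := hF''.1
  have := hF''.2
  have e1 : ∀ x, j (f' x) = f (i x) := fun x => LinearMap.congr_fun h1 x
  have e2 : ∀ x, q (f x) = f'' (p x) := fun x => LinearMap.congr_fun h2 x
  -- the maps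
  let α : LinearMap.ker f' →ₗ[k] LinearMap.ker f := i.restrict (fun x hx => by
    rw [LinearMap.mem_ker] at hx ⊢
    rw [← e1, hx, map_zero])
  let β : LinearMap.ker f →ₗ[k] LinearMap.ker f'' := p.restrict (fun x hx => by
    rw [LinearMap.mem_ker] at hx ⊢
    rw [← e2, hx, map_zero])
  let γ : (W' ⧸ LinearMap.range f') →ₗ[k] (W ⧸ LinearMap.range f) :=
    (LinearMap.range f').mapQ (LinearMap.range f) j (by
      rintro _ ⟨x, rfl⟩
      exact ⟨i x, (e1 x).symm⟩)
  let ε : (W ⧸ LinearMap.range f) →ₗ[k] (W'' ⧸ LinearMap.range f'') :=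
    (LinearMap.range f).mapQ (LinearMap.range f'') q (by
      rintro _ ⟨x, rfl⟩
      exact ⟨p x, (e2 x).symm⟩)
  let δ : LinearMap.ker f'' →ₗ[k] (W' ⧸ LinearMap.range f') :=
    SnakeLemma.δ' f' f f'' i p hip j q hjq h1 h2 (LinearMap.ker f'').subtype
      (LinearMap.exact_subtype_ker_map f'') (LinearMap.range f').mkQ
      (LinearMap.exact_map_mkQ_range f') hp hj
  have x1 : Function.Exact β δ :=
    SnakeLemma.exact_δ'_right f' f f'' i p hip j q hjq h1 h2 (LinearMap.ker f).subtype
      (LinearMap.exact_subtype_ker_map f) (LinearMap.ker f'').subtype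
      (LinearMap.exact_subtype_ker_map f'') (LinearMap.range f').mkQ
      (LinearMap.exact_map_mkQ_range f') hp hj β (by ext x; rfl)
      (Submodule.injective_subtype _)
  have x2 : Function.Exact δ γ :=
    SnakeLemma.exact_δ'_left f' f f'' i p hip j q hjq h1 h2 (LinearMap.ker f'').subtype
      (LinearMap.exact_subtype_ker_map f'') (LinearMap.range f').mkQ
      (LinearMap.exact_map_mkQ_range f') (LinearMap.range f).mkQ
      (LinearMap.exact_map_mkQ_range f) hp hj γ (by ext x; rfl)
      (Submodule.mkQ_surjective _)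
  have x0 : Function.Injective α := by
    intro a b hab
    apply Subtype.ext
    apply hi
    exact congrArg Subtype.val hab
  have x3 : Function.Exact α β := by
    intro y
    constructor
    · intro hy
      have hy' : p (y : V) = 0 := congrArg Subtype.val hy
      obtain ⟨x, hx⟩ := (hip (y : V)).mp hy'
      have hxk : f' x = 0 := by
        apply hj
        rw [e1, hx, map_zero]
        exact y.2
      exact ⟨⟨x, hxk⟩, Subtype.ext hx⟩
    · rintro ⟨x, rfl⟩
      apply Subtype.ext
      exact (hip _).mpr ⟨_, rfl⟩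
  have x4 : Function.Exact γ ε := by
    intro y
    obtain ⟨y, rfl⟩ := Submodule.mkQ_surjective _ y
    constructor
    · intro hy
      have hy' : q y ∈ LinearMap.range f'' := by
        have : (LinearMap.range f'').mkQ (q y) = 0 := hy
        rwa [Submodule.mkQ_apply, Submodule.Quotient.mk_eq_zero] at this
      obtain ⟨v'', hv''⟩ := hy'
      obtain ⟨v, rfl⟩ := hp v''
      have h3 : q (y - f v) = 0 := by rw [map_sub, e2, hv'', sub_self]
      obtain ⟨w', hw'⟩ := (hjq _).mp h3
      refine ⟨(LinearMap.range f').mkQ w', ?_⟩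
      show (LinearMap.range f).mkQ (j w') = (LinearMap.range f).mkQ y
      rw [hw', map_sub, sub_eq_self, Submodule.mkQ_apply, Submodule.Quotient.mk_eq_zero]
      exact ⟨v, rfl⟩
    · rintro ⟨x, hx⟩
      obtain ⟨x, rfl⟩ := Submodule.mkQ_surjective _ x
      rw [← hx]
      show (LinearMap.range f'').mkQ (q (j x)) = 0
      rw [(hjq _).mpr ⟨x, rfl⟩, map_zero]
  have x5 : Function.Surjective ε := by
    intro y
    obtain ⟨y, rfl⟩ := Submodule.mkQ_surjective _ y
    obtain ⟨w, rfl⟩ := hq y
    exact ⟨(LinearMap.range f).mkQ w, rfl⟩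
  -- dimensions
  have d0 := LinearMap.finrank_range_add_finrank_ker α
  have d1 := LinearMap.finrank_range_add_finrank_ker β
  have d2 := LinearMap.finrank_range_add_finrank_ker δ
  have d3 := LinearMap.finrank_range_add_finrank_ker γ
  have d4 := LinearMap.finrank_range_add_finrank_ker ε
  rw [LinearMap.ker_eq_bot.mpr x0, finrank_bot] at d0
  rw [LinearMap.exact_iff.mp x3] at d1
  rw [LinearMap.exact_iff.mp x1] at d2
  rw [LinearMap.exact_iff.mp x2] at d3
  rw [LinearMap.exact_iff.mp x4, LinearMap.range_eq_top.mpr x5, finrank_top] at d4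
  unfold ind
  omega

end Pool.Agent.W405.LG
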